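import Mathlib

/-!
# A constant bound for the strong locally irregular chromatic index

We prove `slir(D) ≤ 11` for every finite digraph `D`.  In particular there is an absolute constant
bounding `slir(D)`, which answers Q1 of MP_5851c7_co in the affirmative.
-/

open Finset

namespace Pool.Agent.Results.MP_5851c7_co.ConstantBound

open Classical in
/-- The balanced degree `d⁺_B(v) - d⁻_B(v)` of `v` in the arc set `B`. -/
noncomputable def bal {V : Type} [Fintype V] (B : V → V → Prop) (v : V) : ℤ :=
  ((univ.filter (fun w => B v w)).card : ℤ) - ((univ.filter (fun w => B w v)).card : ℤ)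

/-- The arc set `B` is strong locally irregular. -/
def StrongLI {V : Type} [Fintype V] (B : V → V → Prop) : Prop :=
  ∀ u v, B u v → bal B u ≠ bal B v

/-- `c` is a strong locally irregular coloring with `k` colors of the digraph with arc set `A`:
for every color `i`, the set of arcs of color `i` is strong locally irregular. -/
def IsColoring {V : Type} [Fintype V] (A : V → V → Prop) (k : ℕ)
    (c : {p : V × V // A p.1 p.2} → Fin k) : Prop :=
  ∀ i : Fin k, StrongLI (fun u v => ∃ h : A u v, c ⟨(u, v), h⟩ = i)

/-- The strong locally irregular chromatic index: the least number of colors of a strong locally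
irregular coloring. -/
noncomputable def slir {V : Type} [Fintype V] (A : V → V → Prop) : ℕ :=
  sInf {k : ℕ | ∃ c : {p : V × V // A p.1 p.2} → Fin k, IsColoring A k c}

section Proof

open Classical

variable {V : Type} [Fintype V]

/-- number of arcs between two vertices -/
noncomputable def wt (A : V → V → Prop) (u v : V) : ℕ :=
  (if A u v then 1 else 0) + (if A v u then 1 else 0)

omit [Fintype V] in
lemma wt_self {A : V → V → Prop} (hA : ∀ v, ¬ A v v) (v : V) : wt A v v = 0 := by
  simp [wt, hA]

omit [Fintype V] in
lemma wt_comm (A : V → V → Prop) (u v : V) : wt A u v = wt A v u := by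
  unfold wt; ring

/-- number of arcs between `x` and part `j` -/
noncomputable def dd {ι : Type} (A : V → V → Prop) (f : V → ι) (x : V) (j : ι) : ℕ :=
  ∑ y, if f y = j then wt A x y else 0

/-- twice the number of arcs inside parts -/
noncomputable def Phi {ι : Type} (A : V → V → Prop) (f : V → ι) : ℕ :=
  ∑ u, ∑ v, if f u = f v then wt A u v else 0

lemma Phi_update {ι : Type} {A : V → V → Prop} (hA : ∀ v, ¬ A v v) (f : V → ι) (x : V) (j : ι) :
    Phi A (Function.update f x j) = 2 * dd A f x j +
      ∑ u ∈ univ.erase x, ∑ v ∈ univ.erase x, (if f u = f v then wt A u v else 0) := by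
  unfold Phi
  rw [← Finset.add_sum_erase univ _ (mem_univ x)]
  have h1 : ∑ v, (if Function.update f x j x = Function.update f x j v then wt A x v else 0)
      = dd A f x j := by
    unfold dd
    apply sum_congr rfl
    intro v _
    by_cases hv : v = x
    · subst hv
      simp [wt_self hA]
    · rw [Function.update_self, Function.update_of_ne hv]
      by_cases h : j = f v
      · rw [if_pos h, if_pos h.symm]
      · rw [if_neg h, if_neg (fun h' => h h'.symm)]
  have h2 : ∀ u ∈ univ.erase x,
      ∑ v, (if Function.update f x j u = Function.update f x j v then wt A u v else 0)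
        = (if f u = j then wt A x u else 0) +
          ∑ v ∈ univ.erase x, (if f u = f v then wt A u v else 0) := by
    intro u hu
    have hux : u ≠ x := ne_of_mem_erase hu
    rw [← Finset.add_sum_erase univ _ (mem_univ x)]
    congr 1
    · rw [Function.update_self, Function.update_of_ne hux, wt_comm]
    · apply sum_congr rfl
      intro v hv
      rw [Function.update_of_ne hux, Function.update_of_ne (ne_of_mem_erase hv)]
  have h3 : ∑ u ∈ univ.erase x, (if f u = j then wt A x u else 0) = dd A f x j := by
    unfold dd
    rw [← Finset.add_sum_erase univ _ (mem_univ x)]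
    simp [wt_self hA]
  rw [h1, sum_congr rfl h2, sum_add_distrib, h3]
  ring

lemma exists_opt {ι : Type} [Finite ι] [Nonempty ι] {A : V → V → Prop} (hA : ∀ v, ¬ A v v) :
    ∃ f : V → ι, ∀ x j, dd A f x (f x) ≤ dd A f x j := by
  obtain ⟨f, hf⟩ := Finite.exists_min (fun f : V → ι => Phi A f)
  refine ⟨f, fun x j => ?_⟩
  have h1 := hf (Function.update f x j)
  have h2 := Phi_update hA f x j
  have h3 := Phi_update hA f x (f x)
  rw [Function.update_eq_self] at h3
  have h4 : Phi A f ≤ Phi A (Function.update f x j) := h1
  omega

lemma greedy (adj : V → V → Prop) (b : V → ℤ) (lo n : V → ℕ)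
    (hsymm : ∀ x y, adj x y → adj y x) (hirr : ∀ x, ¬ adj x x)
    (hcard : ∀ x, (univ.filter (fun y => adj x y)).card ≤ n x) :
    ∃ s : V → ℕ, (∀ x, lo x ≤ s x ∧ s x ≤ lo x + n x) ∧
      ∀ x y, adj x y → b x + (s x : ℤ) ≠ b y + (s y : ℤ) := by
  have key : ∀ S : Finset V, ∃ s : V → ℕ, (∀ x, lo x ≤ s x ∧ s x ≤ lo x + n x) ∧
      ∀ x ∈ S, ∀ y ∈ S, adj x y → b x + (s x : ℤ) ≠ b y + (s y : ℤ) := by
    intro S
    induction S using Finset.induction_on with
    | empty => exact ⟨lo, fun x => ⟨le_rfl, by omega⟩, by simp⟩
    | insert a S ha ih =>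
      obtain ⟨s, hs, hS⟩ := ih
      obtain ⟨t, ht, htn⟩ : ∃ t ∈ Finset.Icc (lo a) (lo a + n a),
          (b a + (t:ℤ)) ∉ (univ.filter (fun y => adj a y)).image (fun y => b y + (s y : ℤ)) := by
        by_contra hcon
        push Not at hcon
        have hsub : (Finset.Icc (lo a) (lo a + n a)).image (fun t : ℕ => b a + (t:ℤ)) ⊆
            (univ.filter (fun y => adj a y)).image (fun y => b y + (s y : ℤ)) := by
          intro z hz
          obtain ⟨t, ht, rfl⟩ := mem_image.mp hz
          exact hcon t ht
        have h1 := card_le_card hsub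
        rw [card_image_of_injective _ (by intro p q h; simpa using h)] at h1
        have h2 := card_image_le (s := univ.filter (fun y => adj a y))
          (f := fun y => b y + (s y:ℤ))
        have h3 := hcard a
        rw [Nat.card_Icc] at h1
        omega
      refine ⟨Function.update s a t, ?_, ?_⟩
      · intro x
        by_cases hx : x = a
        · subst hx
          rw [Function.update_self]
          exact Finset.mem_Icc.mp ht
        · rw [Function.update_of_ne hx]
          exact hs x
      · intro x hx y hy hxy
        by_cases hxa : x = a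
        · subst hxa
          have hya : y ≠ x := by
            rintro rfl
            exact hirr _ hxy
          rw [Function.update_self, Function.update_of_ne hya]
          intro he
          apply htn
          rw [mem_image]
          exact ⟨y, by simp [hxy], he.symm⟩
        · by_cases hya : y = a
          · subst hya
            rw [Function.update_self, Function.update_of_ne hxa]
            intro he
            apply htn
            rw [mem_image]
            exact ⟨x, by simp [hsymm _ _ hxy], he⟩
          · rw [Function.update_of_ne hxa, Function.update_of_ne hya]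
            exact hS x (mem_of_mem_insert_of_ne hx hxa) y (mem_of_mem_insert_of_ne hy hya) hxy
  obtain ⟨s, hs, h⟩ := key univ
  exact ⟨s, hs, fun x y => h x (mem_univ x) y (mem_univ y)⟩

lemma plusClass (B E : V → V → Prop) (X : V → Prop) (T : V → Finset V) (s : V → ℕ)
    (hB : ∀ u v, B u v ↔ (E u v ∨ (X u ∧ v ∈ T u)))
    (hE : ∀ u v, E u v → X u ∧ X v)
    (hT : ∀ x, X x → ∀ w ∈ T x, ¬ X w)
    (hs : ∀ x, X x → (T x).card = s x)
    (hlo : ∀ x, X x → (univ.filter (fun w => E w x)).card ≤ s x)
    (hne : ∀ x y, E x y → bal E x + (s x : ℤ) ≠ bal E y + (s y : ℤ)) :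
    StrongLI B := by
  have hX : ∀ x, X x → bal B x = bal E x + s x := by
    intro x hx
    unfold bal
    have h1 : univ.filter (fun w => B x w) =
        univ.filter (fun w => E x w) ∪ T x := by
      ext w
      simp [hB, hx]
    have h2 : Disjoint (univ.filter (fun w => E x w)) (T x) := by
      rw [Finset.disjoint_left]
      intro w hw hwT
      exact hT x hx w hwT (hE x w (by simpa using hw)).2
    have h3 : univ.filter (fun w => B w x) =
        univ.filter (fun w => E w x) := by
      ext w
      simp only [mem_filter, mem_univ, true_and, hB]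
      constructor
      · rintro (h | ⟨hw, hwT⟩)
        · exact h
        · exact absurd hx (hT w hw x hwT)
      · exact Or.inl
    rw [h1, card_union_of_disjoint h2, h3, hs x hx]
    push_cast
    ring
  intro u v huv
  rcases (hB u v).mp huv with h | ⟨hu, hv⟩
  · rw [hX u (hE u v h).1, hX v (hE u v h).2]
    exact hne u v h
  · have hvX := hT u hu v hv
    have h1 : bal B v ≤ -1 := by
      unfold bal
      have e1 : univ.filter (fun w => B v w) = ∅ := by
        ext w
        simp only [mem_filter, mem_univ, true_and, notMem_empty, iff_false, hB]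
        rintro (h | ⟨h, _⟩)
        · exact hvX (hE v w h).1
        · exact hvX h
      have e2 : 1 ≤ (univ.filter (fun w => B w v)).card :=
        card_pos.mpr ⟨u, by simp [huv]⟩
      rw [e1, card_empty]
      push_cast
      omega
    have h2 : 0 ≤ bal B u := by
      rw [hX u hu]
      unfold bal
      have := hlo u hu
      omega
    omega

lemma bal_rev (B : V → V → Prop) (x : V) : bal (fun u v => B v u) x = - bal B x := by
  unfold bal
  ring

lemma strongLI_of_rev (B : V → V → Prop) (h : StrongLI (fun u v => B v u)) : StrongLI B := by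
  intro u v huv he
  have h1 := h v u huv
  rw [bal_rev B v, bal_rev B u, he] at h1
  exact h1 rfl

lemma cutClass (B : V → V → Prop) (P : V → Prop) (h : ∀ u v, B u v → P u ∧ ¬ P v) :
    StrongLI B := by
  intro u v huv
  obtain ⟨hu, hv⟩ := h u v huv
  have h1 : bal B v ≤ -1 := by
    unfold bal
    have e1 : univ.filter (fun w => B v w) = ∅ := by
      ext w
      simp only [mem_filter, mem_univ, true_and, notMem_empty, iff_false]
      intro hw
      exact hv (h v w hw).1
    have e2 : 1 ≤ (univ.filter (fun w => B w v)).card := card_pos.mpr ⟨u, by simp [huv]⟩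
    rw [e1, card_empty]
    push_cast
    omega
  have h2 : 1 ≤ bal B u := by
    unfold bal
    have e1 : univ.filter (fun w => B w u) = ∅ := by
      ext w
      simp only [mem_filter, mem_univ, true_and, notMem_empty, iff_false]
      intro hw
      exact (h w u hw).2 hu
    have e2 : 1 ≤ (univ.filter (fun w => B u w)).card := card_pos.mpr ⟨v, by simp [huv]⟩
    rw [e1, card_empty]
    push_cast
    omega
  omega

end Proof

/-- ownership between the twelve parts -/
def own : Bool × Fin 6 → Bool × Fin 6 → Bool
  | (false, a), (true, b) => decide ((b - a).val < 3)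
  | (true, b), (false, a) => decide (3 ≤ (b - a).val)
  | _, _ => false

lemma own_group : ∀ i j, own i j = true → i.1 ≠ j.1 := by decide

lemma own_asymm : ∀ i j, own i j = true → own j i = true → False := by decide

lemma own_card : ∀ i, (univ.filter (fun j => own i j = true)).card = 3 := by decide

/-- codes of the cells: pairwise incomparable subsets of a seven element set -/
def code (a : (Bool × Fin 6) × Bool) : ℕ :=
  [7, 11, 13, 14, 19, 21, 22, 25, 26, 28, 35, 37, 38, 41, 42, 44, 49, 50, 52, 56, 67, 69, 70,
    73].getD ((if a.1.1 then 12 else 0) + (if a.2 then 6 else 0) + a.1.2.val) 0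

lemma exists_cut : ∀ a b : (Bool × Fin 6) × Bool, a ≠ b →
    ∃ k : Fin 7, (code a).testBit k.val = true ∧ (code b).testBit k.val = false := by
  decide +kernel

section Main

open Classical

variable {V : Type} [Fintype V]

/-- number of arcs into `x` from its own part -/
noncomputable def inI (A : V → V → Prop) (f : V → Bool × Fin 6) (x : V) : ℕ :=
  (univ.filter (fun y => A y x ∧ f y = f x)).card

/-- number of arcs from `x` to its own part -/
noncomputable def outI (A : V → V → Prop) (f : V → Bool × Fin 6) (x : V) : ℕ :=
  (univ.filter (fun y => A x y ∧ f y = f x)).card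

/-- number of arcs from `x` to the parts owned by the part of `x` -/
noncomputable def FF (A : V → V → Prop) (f : V → Bool × Fin 6) (x : V) : ℕ :=
  (univ.filter (fun y => A x y ∧ own (f x) (f y) = true)).card

/-- number of arcs into `x` from the parts owned by the part of `x` -/
noncomputable def GG (A : V → V → Prop) (f : V → Bool × Fin 6) (x : V) : ℕ :=
  (univ.filter (fun y => A y x ∧ own (f x) (f y) = true)).card

lemma dd_self (A : V → V → Prop) (f : V → Bool × Fin 6) (x : V) :
    dd A f x (f x) = inI A f x + outI A f x := by
  unfold dd inI outI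
  rw [card_filter, card_filter, ← sum_add_distrib]
  apply sum_congr rfl
  intro y _
  unfold wt
  by_cases h : f y = f x <;> by_cases h1 : A x y <;> by_cases h2 : A y x <;> simp [h, h1, h2]

lemma FG_bound (A : V → V → Prop) (f : V → Bool × Fin 6)
    (hf : ∀ x j, dd A f x (f x) ≤ dd A f x j) (x : V) :
    3 * (inI A f x + outI A f x) ≤ FF A f x + GG A f x := by
  have h1 : FF A f x + GG A f x =
      ∑ j ∈ univ.filter (fun j => own (f x) j = true), dd A f x j := by
    unfold dd FF GG
    rw [sum_comm, card_filter, card_filter, ← sum_add_distrib]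
    apply sum_congr rfl
    intro y _
    by_cases h : own (f x) (f y) = true
    · trans wt A x y
      · unfold wt
        by_cases h1 : A x y <;> by_cases h2 : A y x <;> simp [h, h1, h2]
      · symm
        refine (Finset.sum_eq_single_of_mem (f y) (by simp [h]) ?_).trans ?_
        · intro j _ hj
          exact if_neg (fun h' => hj h'.symm)
        · exact if_pos rfl
    · rw [Finset.sum_eq_zero]
      · simp [h]
      · intro j hj
        rw [if_neg]
        rintro rfl
        exact h (mem_filter.mp hj).2
  rw [h1, ← dd_self]
  calc 3 * dd A f x (f x)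
      = ∑ j ∈ univ.filter (fun j => own (f x) j = true), dd A f x (f x) := by
        rw [sum_const, own_card, smul_eq_mul]
    _ ≤ _ := sum_le_sum (fun j _ => hf x j)

lemma main_coloring (A : V → V → Prop) (hA : ∀ v, ¬ A v v) :
    ∃ c : V → V → (Bool × Bool) ⊕ Fin 7, ∀ k, StrongLI (fun u v => A u v ∧ c u v = k) := by
  obtain ⟨f, hf⟩ := exists_opt (ι := Bool × Fin 6) hA
  have hFG := FG_bound A f hf
  obtain ⟨pl, hpl⟩ : ∃ pl : V → Bool, ∀ x, pl x = true ↔
      inI A f x + (inI A f x + outI A f x) ≤ FF A f x := 
    ⟨fun x => decide (inI A f x + (inI A f x + outI A f x) ≤ FF A f x), fun x => by simp⟩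
  obtain ⟨E, hE⟩ : ∃ E : V → V → Prop, ∀ u v, E u v ↔ (A u v ∧ f u = f v ∧ pl u = pl v) :=
    ⟨_, fun _ _ => Iff.rfl⟩
  obtain ⟨lo, hlo⟩ : ∃ lo : V → ℕ, ∀ x, lo x = if pl x = true then inI A f x else outI A f x :=
    ⟨_, fun _ => rfl⟩
  obtain ⟨b, hb⟩ : ∃ b : V → ℤ, ∀ x, b x = if pl x = true then bal E x else - bal E x :=
    ⟨_, fun _ => rfl⟩
  obtain ⟨adj, hadj⟩ : ∃ adj : V → V → Prop, ∀ x y, adj x y ↔ (E x y ∨ E y x) :=
    ⟨_, fun _ _ => Iff.rfl⟩
  obtain ⟨s, hs, hsne⟩ := greedy adj b lo
    (fun x => inI A f x + outI A f x)
    (by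
      intro x y
      rw [hadj, hadj]
      rintro (h | h)
      · exact Or.inr h
      · exact Or.inl h)
    (by
      intro x
      rw [hadj]
      rintro (h | h) <;> exact hA x ((hE x x).mp h).1)
    (by
      intro x
      have hsub : univ.filter (fun y => adj x y) ⊆
          univ.filter (fun y => A y x ∧ f y = f x) ∪
            univ.filter (fun y => A x y ∧ f y = f x) := by
        intro y
        simp only [mem_filter, mem_union, mem_univ, true_and, hE, hadj]
        rintro (⟨h1, h2, _⟩ | ⟨h1, h2, _⟩)
        · exact Or.inr ⟨h1, h2.symm⟩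
        · exact Or.inl ⟨h1, h2⟩
      exact (card_le_card hsub).trans (card_union_le _ _))
  have hT0 : ∀ x, ∃ T : Finset V, T.card = s x ∧ ∀ w ∈ T, own (f x) (f w) = true ∧
      (pl x = true → A x w) ∧ (pl x = false → A w x) := by
    intro x
    have h1 := hs x
    have h2 := hFG x
    rw [hlo x] at h1
    by_cases hp : pl x = true
    · have h3 := (hpl x).mp hp
      rw [if_pos hp] at h1
      have h4 : s x ≤ (univ.filter (fun y => A x y ∧ own (f x) (f y) = true)).card := by
        change s x ≤ FF A f x
        have := h1.2
        omega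
      obtain ⟨T, hT, hc⟩ := exists_subset_card_eq h4
      refine ⟨T, hc, fun w hw => ?_⟩
      have h5 := mem_filter.mp (hT hw)
      refine ⟨h5.2.2, fun _ => h5.2.1, fun h => ?_⟩
      rw [hp] at h
      exact absurd h (by decide)
    · have h3 : ¬ (inI A f x + (inI A f x + outI A f x) ≤ FF A f x) := by
        rw [← hpl x]
        exact hp
      rw [if_neg hp] at h1
      have h4 : s x ≤ (univ.filter (fun y => A y x ∧ own (f x) (f y) = true)).card := by
        change s x ≤ GG A f x
        have := h1.2
        omega
      obtain ⟨T, hT, hc⟩ := exists_subset_card_eq h4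
      refine ⟨T, hc, fun w hw => ?_⟩
      have h5 := mem_filter.mp (hT hw)
      exact ⟨h5.2.2, fun h => absurd h hp, fun _ => h5.2.1⟩
  choose T hTc hT using hT0
  choose cut hcut using exists_cut
  obtain ⟨c, hc⟩ : ∃ c : V → V → (Bool × Bool) ⊕ Fin 7, ∀ u v, c u v =
      if f u = f v ∧ pl u = pl v then Sum.inl ((f u).1, pl u)
      else if pl u = true ∧ v ∈ T u then Sum.inl ((f u).1, true)
      else if pl v = false ∧ u ∈ T v then Sum.inl ((f v).1, false)
      else if h : (f u, pl u) ≠ (f v, pl v) then Sum.inr (cut _ _ h) else Sum.inl (true, true) :=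
    ⟨_, fun _ _ => rfl⟩
  refine ⟨c, ?_⟩
  rintro (⟨g, σ⟩ | k)
  · cases σ with
    | true =>
      obtain ⟨X, hX⟩ : ∃ X : V → Prop, ∀ x, X x ↔ ((f x).1 = g ∧ pl x = true) :=
        ⟨_, fun _ => Iff.rfl⟩
      obtain ⟨E', hE'⟩ : ∃ E' : V → V → Prop, ∀ u v, E' u v ↔ (E u v ∧ X u) :=
        ⟨_, fun _ _ => Iff.rfl⟩
      have hXE : ∀ u v, E u v → (X u ↔ X v) := by
        intro u v h
        rw [hX, hX, ((hE u v).mp h).2.1, ((hE u v).mp h).2.2]
      have hbal : ∀ x, X x → bal E' x = bal E x := by
        intro x hx
        unfold bal
        have e1 : univ.filter (fun w => E' x w) = univ.filter (fun w => E x w) := by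
          ext w
          simp only [mem_filter, mem_univ, true_and, hE']
          exact ⟨fun h => h.1, fun h => ⟨h, hx⟩⟩
        have e2 : univ.filter (fun w => E' w x) = univ.filter (fun w => E w x) := by
          ext w
          simp only [mem_filter, mem_univ, true_and, hE']
          exact ⟨fun h => h.1, fun h => ⟨h, (hXE w x h).mpr hx⟩⟩
        rw [e1, e2]
      refine plusClass _ E' X T s ?_ ?_ ?_ (fun x _ => hTc x) ?_ ?_
      · intro u v
        simp only [hc, hE', hE, hX]
        constructor
        · rintro ⟨hA1, h⟩
          by_cases h1 : f u = f v ∧ pl u = pl v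
          · rw [if_pos h1] at h
            have h2 := Sum.inl.inj h
            exact Or.inl ⟨⟨hA1, h1⟩, congrArg Prod.fst h2, congrArg Prod.snd h2⟩
          · rw [if_neg h1] at h
            by_cases h2 : pl u = true ∧ v ∈ T u
            · rw [if_pos h2] at h
              exact Or.inr ⟨⟨congrArg Prod.fst (Sum.inl.inj h), h2.1⟩, h2.2⟩
            · rw [if_neg h2] at h
              exfalso
              by_cases h3 : pl v = false ∧ u ∈ T v
              · rw [if_pos h3] at h
                exact absurd (congrArg Prod.snd (Sum.inl.inj h)) (by simp)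
              · rw [if_neg h3] at h
                rw [dif_pos (by
                  intro h4
                  exact h1 ⟨congrArg Prod.fst h4, congrArg Prod.snd h4⟩)] at h
                exact absurd h (by simp)
        · rintro (⟨⟨hA1, h1⟩, h2, h3⟩ | ⟨⟨h2, h3⟩, h4⟩)
          · refine ⟨hA1, ?_⟩
            rw [if_pos h1, h2, h3]
          · have h5 := hT u v h4
            refine ⟨h5.2.1 h3, ?_⟩
            rw [if_neg (by
              rintro ⟨h6, _⟩
              exact own_group _ _ h5.1 (congrArg Prod.fst h6)), if_pos ⟨h3, h4⟩, h2]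
      · intro u v h
        rw [hE'] at h
        exact ⟨h.2, (hXE u v h.1).mp h.2⟩
      · intro x hx w hw hXw
        rw [hX] at hx hXw
        exact own_group _ _ (hT x w hw).1 (hx.1.trans hXw.1.symm)
      · intro x hx
        have h1 := (hs x).1
        rw [hlo x, if_pos ((hX x).mp hx).2] at h1
        refine le_trans (card_le_card ?_) h1
        intro w
        simp only [mem_filter, mem_univ, true_and, hE', hE]
        exact fun h => ⟨h.1.1, h.1.2.1⟩
      · intro x y hxy
        rw [hE'] at hxy
        have hy : X y := (hXE x y hxy.1).mp hxy.2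
        have h1 := hsne x y ((hadj x y).mpr (Or.inl hxy.1))
        rw [hb x, hb y, if_pos ((hX x).mp hxy.2).2, if_pos ((hX y).mp hy).2] at h1
        rw [hbal x hxy.2, hbal y hy]
        exact h1
    | false =>
      apply strongLI_of_rev
      obtain ⟨X, hX⟩ : ∃ X : V → Prop, ∀ x, X x ↔ ((f x).1 = g ∧ pl x = false) :=
        ⟨_, fun _ => Iff.rfl⟩
      obtain ⟨E', hE'⟩ : ∃ E' : V → V → Prop, ∀ u v, E' u v ↔ (E v u ∧ X u) :=
        ⟨_, fun _ _ => Iff.rfl⟩
      have hXE : ∀ u v, E u v → (X u ↔ X v) := by
        intro u v h
        rw [hX, hX, ((hE u v).mp h).2.1, ((hE u v).mp h).2.2]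
      have hbal : ∀ x, X x → bal E' x = - bal E x := by
        intro x hx
        unfold bal
        have e1 : univ.filter (fun w => E' x w) = univ.filter (fun w => E w x) := by
          ext w
          simp only [mem_filter, mem_univ, true_and, hE']
          exact ⟨fun h => h.1, fun h => ⟨h, hx⟩⟩
        have e2 : univ.filter (fun w => E' w x) = univ.filter (fun w => E x w) := by
          ext w
          simp only [mem_filter, mem_univ, true_and, hE']
          exact ⟨fun h => h.1, fun h => ⟨h, (hXE x w h).mp hx⟩⟩
        rw [e1, e2]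
        ring
      refine plusClass _ E' X T s ?_ ?_ ?_ (fun x _ => hTc x) ?_ ?_
      · intro u v
        simp only [hc, hE', hE, hX]
        constructor
        · rintro ⟨hA1, h⟩
          by_cases h1 : f v = f u ∧ pl v = pl u
          · rw [if_pos h1] at h
            have h2 := Sum.inl.inj h
            exact Or.inl ⟨⟨hA1, h1⟩, by rw [← h1.1]; exact congrArg Prod.fst h2,
              by rw [← h1.2]; exact congrArg Prod.snd h2⟩
          · rw [if_neg h1] at h
            by_cases h2 : pl v = true ∧ u ∈ T v
            · rw [if_pos h2] at h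
              exact absurd (congrArg Prod.snd (Sum.inl.inj h)) (by simp)
            · rw [if_neg h2] at h
              by_cases h3 : pl u = false ∧ v ∈ T u
              · rw [if_pos h3] at h
                exact Or.inr ⟨⟨congrArg Prod.fst (Sum.inl.inj h), h3.1⟩, h3.2⟩
              · exfalso
                rw [if_neg h3] at h
                rw [dif_pos (by
                  intro h4
                  exact h1 ⟨congrArg Prod.fst h4, congrArg Prod.snd h4⟩)] at h
                exact absurd h (by simp)
        · rintro (⟨⟨hA1, h1⟩, h2, h3⟩ | ⟨⟨h2, h3⟩, h4⟩)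
          · refine ⟨hA1, ?_⟩
            rw [if_pos h1, h1.1, h1.2, h2, h3]
          · have h5 := hT u v h4
            refine ⟨h5.2.2 h3, ?_⟩
            rw [if_neg (by
              rintro ⟨h6, _⟩
              exact own_group _ _ h5.1 (congrArg Prod.fst h6.symm)), if_neg (by
              rintro ⟨_, h7⟩
              exact own_asymm _ _ h5.1 (hT v u h7).1), if_pos ⟨h3, h4⟩, h2]
      · intro u v h
        rw [hE'] at h
        exact ⟨h.2, (hXE v u h.1).mpr h.2⟩
      · intro x hx w hw hXw
        rw [hX] at hx hXw
        exact own_group _ _ (hT x w hw).1 (hx.1.trans hXw.1.symm)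
      · intro x hx
        have hp : ¬ (pl x = true) := by
          rw [((hX x).mp hx).2]
          decide
        have h1 := (hs x).1
        rw [hlo x, if_neg hp] at h1
        refine le_trans (card_le_card ?_) h1
        intro w
        simp only [mem_filter, mem_univ, true_and, hE', hE]
        exact fun h => ⟨h.1.1, h.1.2.1.symm⟩
      · intro x y hxy
        rw [hE'] at hxy
        have hy : X y := (hXE y x hxy.1).mpr hxy.2
        have hpx : ¬ (pl x = true) := by
          rw [((hX x).mp hxy.2).2]
          decide
        have hpy : ¬ (pl y = true) := by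
          rw [((hX y).mp hy).2]
          decide
        have h1 := hsne x y ((hadj x y).mpr (Or.inr hxy.1))
        rw [hb x, hb y, if_neg hpx, if_neg hpy] at h1
        rw [hbal x hxy.2, hbal y hy]
        exact h1
  · apply cutClass _ (fun x => (code (f x, pl x)).testBit k.val = true)
    rintro u v ⟨hA1, h⟩
    rw [hc] at h
    by_cases h1 : f u = f v ∧ pl u = pl v
    · rw [if_pos h1] at h
      exact absurd h (by simp)
    · rw [if_neg h1] at h
      by_cases h2 : pl u = true ∧ v ∈ T u
      · rw [if_pos h2] at h
        exact absurd h (by simp)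
      · rw [if_neg h2] at h
        by_cases h3 : pl v = false ∧ u ∈ T v
        · rw [if_pos h3] at h
          exact absurd h (by simp)
        · rw [if_neg h3] at h
          have h4 : (f u, pl u) ≠ (f v, pl v) := by
            intro h4
            exact h1 ⟨congrArg Prod.fst h4, congrArg Prod.snd h4⟩
          rw [dif_pos h4] at h
          have h5 := Sum.inr.inj h
          have h6 := hcut _ _ h4
          rw [h5] at h6
          refine ⟨h6.1, ?_⟩
          rw [h6.2]
          decide

lemma hasColoring (A : V → V → Prop) (hA : ∀ v, ¬ A v v) :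
    ∃ c : {p : V × V // A p.1 p.2} → Fin 11, IsColoring A 11 c := by
  obtain ⟨c, hc⟩ := main_coloring A hA
  have hcard : Fintype.card ((Bool × Bool) ⊕ Fin 7) = 11 := by decide
  let e : ((Bool × Bool) ⊕ Fin 7) ≃ Fin 11 := Fintype.equivFinOfCardEq hcard
  refine ⟨fun p => e (c p.1.1 p.1.2), ?_⟩
  intro i
  have h1 : (fun u v => ∃ _ : A u v, e (c u v) = i) = (fun u v => A u v ∧ c u v = e.symm i) := by
    funext u v
    apply propext
    constructor
    · rintro ⟨h, h2⟩
      exact ⟨h, by rw [← h2, Equiv.symm_apply_apply]⟩
    · rintro ⟨h, h2⟩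
      exact ⟨h, by rw [h2, Equiv.apply_symm_apply]⟩
  have h2 := hc (e.symm i)
  rw [← h1] at h2
  exact h2

end Main

/-- Every finite digraph has a strong locally irregular coloring with 11 colors; in particular
there is an absolute constant `C` with `slir(D) ≤ C` for every digraph `D`. -/
theorem result :
    (∃ C : ℕ, ∀ (V : Type) [Fintype V] (A : V → V → Prop), (∀ v, ¬ A v v) → slir A ≤ C) ∧
    (∀ (V : Type) [Fintype V] (A : V → V → Prop), (∀ v, ¬ A v v) →
      slir A ≤ 11 ∧ ∃ c : {p : V × V // A p.1 p.2} → Fin 11, IsColoring A 11 c) := by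
  have h : ∀ (V : Type) [Fintype V] (A : V → V → Prop), (∀ v, ¬ A v v) →
      slir A ≤ 11 ∧ ∃ c : {p : V × V // A p.1 p.2} → Fin 11, IsColoring A 11 c := by
    intro V _ A hA
    exact ⟨Nat.sInf_le (hasColoring A hA), hasColoring A hA⟩
  exact ⟨⟨11, fun V _ A hA => (h V A hA).1⟩, h⟩

end Pool.Agent.Results.MP_5851c7_co.ConstantBound
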